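import Pool.Agent.R847.QX.Stm

/-!
# Local ideals of double covers in trihomogeneous coordinates (project QX)
-/

set_option autoImplicit false

namespace Pool.Agent.R847.QX

open Matrix Topology Filter
open Pool.Agent.TH729.CV (IA mem_IA FA IA_stab)
open Pool.Agent.Y720.MZ (FAon mem_IA_iff infinite_near' PF1)
open Pool.Agent.R847.QM (qv Aat Sall AC ch ch_ne FF FF_ch Aat_AC qv_sum qv_smul eq_ch)

namespace DC

variable {n k : ℕ}

lemma qv_AW (Q : Fin (2 * k + 1) → Matrix (Fin n) (Fin n) ℚ) (i₀ : Fin 2) (t : ℚ)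
    (v : Fin (n + 1) → ℚ) :
    qv (Aat (AW Q i₀) t) v = -(v 0) ^ 2 + qv (Aat (AC Q i₀) t) (fun j => v j.succ) := by
  rw [Aat_AC, qv_sum]
  simp only [qv, dotProduct, mulVec, Fin.sum_univ_succ (n := n), Aat, AW, Matrix.map_apply,
    Matrix.of_apply, Fin.cons_zero, Fin.cons_succ, Polynomial.eval_neg, Polynomial.eval_one,
    Polynomial.eval_zero, Polynomial.eval_finsetSum, Polynomial.eval_mul, Polynomial.eval_pow,
    Polynomial.eval_X, Polynomial.eval_C, zero_mul, Finset.sum_const_zero, add_zero, zero_add]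
  have h1 : v 0 * (-1 * v 0) = -(v 0) ^ 2 := by ring
  rw [h1]
  congr 1
  simp only [Finset.mul_sum, Finset.sum_mul]
  symm
  rw [Finset.sum_comm]
  refine Finset.sum_congr rfl fun j _ => ?_
  rw [Finset.sum_comm]
  refine Finset.sum_congr rfl fun l _ => Finset.sum_congr rfl fun i _ => ?_
  ring

/-- substitution -/
noncomputable def sbw (k : ℕ) (i₀ : Fin 2) (b : ℚ) :
    MvPolynomial (Option (Fin n ⊕ Fin 2)) ℚ →ₐ[ℚ] MvPolynomial (Fin (n + 1 + 1)) ℚ :=
  MvPolynomial.aeval (fun o => o.elim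
    (MvPolynomial.C (b ^ k) * MvPolynomial.X (Fin.succ 0))
    (Sum.elim (fun i => MvPolynomial.X i.succ.succ)
      (ch i₀ (MvPolynomial.C b) (MvPolynomial.X 0))))

lemma eval_sbw (i₀ : Fin 2) (b : ℚ) (f : MvPolynomial (Option (Fin n ⊕ Fin 2)) ℚ)
    (y : Fin (n + 1 + 1) → ℚ) :
    MvPolynomial.eval y (sbw k i₀ b f) =
      MvPolynomial.eval (fun o => o.elim (b ^ k * y (Fin.succ 0))
        (Sum.elim (fun i => y i.succ.succ) (ch i₀ b (y 0)))) f := by
  have h1 : (MvPolynomial.aeval y : MvPolynomial (Fin (n + 1 + 1)) ℚ →ₐ[ℚ] ℚ).comp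
      (sbw k i₀ b) =
      MvPolynomial.aeval (fun o => o.elim (b ^ k * y (Fin.succ 0))
        (Sum.elim (fun i => y i.succ.succ) (ch i₀ b (y 0)))) := by
    apply MvPolynomial.algHom_ext
    intro o
    rw [AlgHom.comp_apply, sbw, MvPolynomial.aeval_X, MvPolynomial.aeval_X]
    rcases o with _ | i | j
    · simp
    · simp
    · simp only [Option.elim_some, Sum.elim_inr, ch]
      by_cases hj : j = i₀
      · rw [if_pos hj, if_pos hj]
        simp
      · rw [if_neg hj, if_neg hj]
        simp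
  have h2 := DFunLike.congr_fun h1 f
  rw [AlgHom.comp_apply, MvPolynomial.aeval_eq_eval, MvPolynomial.aeval_eq_eval] at h2
  exact h2

/-- the local ideal in trihomogeneous coordinates -/
def JW {L : Type} [NontriviallyNormedField L] (σ : ℚ →+* L)
    (Q : Fin (2 * k + 1) → Matrix (Fin n) (Fin n) ℚ) (w : L) (x : Fin n → L) (s : Fin 2 → L) :
    Set (MvPolynomial (Option (Fin n ⊕ Fin 2)) ℚ) :=
  {f : MvPolynomial (Option (Fin n ⊕ Fin 2)) ℚ |
            ∃ U ∈ nhds (w, x, s), ∀ (W : ℚ) (Y : Fin n → ℚ) (T : Fin 2 → ℚ), Y ≠ 0 → T ≠ 0 →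
              W ^ 2 = ∑ i : Fin (2 * k + 1), T 0 ^ (2 * k - (i : ℕ)) * T 1 ^ (i : ℕ) *
                (Y ⬝ᵥ Q i *ᵥ Y) →
              (∃ c e : L, c ≠ 0 ∧ e ≠ 0 ∧
                (c * e ^ k * σ W, (fun i => c * σ (Y i)), fun j => e * σ (T j)) ∈ U) →
              ∀ a b : ℚ, MvPolynomial.eval
                (fun o => o.elim (a * b ^ k * W) (Sum.elim (a • Y) (b • T))) f = 0}

/-- the translation of ideals -/
def PSw (k : ℕ) (i₀ : Fin 2) (I : Ideal (MvPolynomial (Fin (n + 1 + 1)) ℚ)) :
    Set (MvPolynomial (Option (Fin n ⊕ Fin 2)) ℚ) := {f | ∀ b : ℚ, sbw k i₀ b f ∈ I}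

theorem JW_eq {L : Type} [NontriviallyNormedField L] [CompleteSpace L] [CharZero L] (σ : ℚ →+* L)
    (hσ : DenseRange σ) (Q : Fin (2 * k + 1) → Matrix (Fin n) (Fin n) ℚ) (i₀ : Fin 2) (w : L)
    (x : Fin n → L) (s : Fin 2 → L) (hx : x ≠ 0) (hs : s i₀ ≠ 0) :
    JW σ Q w x s = PSw k i₀ (IA σ (Sall (AW Q i₀))
      (Fin.cons (s (1 - i₀) / s i₀) (Fin.cons (w / s i₀ ^ k) x : Fin (n + 1) → L) :
        Fin (n + 1 + 1) → L)) := by
  have hne10 : (1 - i₀ : Fin 2) ≠ i₀ := by fin_cases i₀ <;> decide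
  have hcase : ∀ j : Fin 2, j = i₀ ∨ j = 1 - i₀ := by
    intro j
    fin_cases i₀ <;> fin_cases j <;> decide
  have hsk : s i₀ ^ k ≠ 0 := pow_ne_zero _ hs
  ext f
  constructor
  · rintro ⟨U, hU, hUf⟩ b
    rw [mem_IA_iff]
    -- the map of the chart to the cone
    set Φ : (Fin (n + 1 + 1) → L) → L × (Fin n → L) × (Fin 2 → L) := fun z =>
      (s i₀ ^ k * z (Fin.succ 0), (fun i => z i.succ.succ),
        fun j => if j = i₀ then s i₀ else s i₀ * z 0) with hΦ
    have hΦc : Continuous Φ := by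
      refine (continuous_const.mul (continuous_apply _)).prodMk
        ((continuous_pi fun i => continuous_apply _).prodMk (continuous_pi fun j => ?_))
      by_cases hj : j = i₀
      · simp only [if_pos hj]
        exact continuous_const
      · simp only [if_neg hj]
        exact continuous_const.mul (continuous_apply _)
    have hΦx : Φ (Fin.cons (s (1 - i₀) / s i₀) (Fin.cons (w / s i₀ ^ k) x : Fin (n + 1) → L)) =
        (w, x, s) := by
      rw [hΦ]
      refine Prod.ext ?_ (Prod.ext ?_ ?_)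
      · simp only [Fin.cons_succ, Fin.cons_zero]
        field_simp
      · funext i
        simp
      · funext j
        simp only [Fin.cons_zero]
        rcases hcase j with rfl | hj
        · rw [if_pos rfl]
        · rw [hj, if_neg hne10]
          field_simp
    have h1 : Φ ⁻¹' U ∈ 𝓝 (Fin.cons (s (1 - i₀) / s i₀)
        (Fin.cons (w / s i₀ ^ k) x : Fin (n + 1) → L) : Fin (n + 1 + 1) → L) := by
      apply hΦc.continuousAt.preimage_mem_nhds
      rw [hΦx]
      exact hU
    have hopen : IsOpen {x : Fin (n + 1 + 1) → L | (fun i : Fin n => x i.succ.succ) ≠ 0} := by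
      have hc : Continuous fun x : Fin (n + 1 + 1) → L => fun i : Fin n => x i.succ.succ :=
        continuous_pi fun i => continuous_apply _
      exact isOpen_ne.preimage hc
    have h2 : {x : Fin (n + 1 + 1) → L | (fun i : Fin n => x i.succ.succ) ≠ 0} ∈
        𝓝 (Fin.cons (s (1 - i₀) / s i₀)
        (Fin.cons (w / s i₀ ^ k) x : Fin (n + 1) → L) : Fin (n + 1 + 1) → L) := by
      apply hopen.mem_nhds
      simpa using hx
    refine ⟨_, inter_mem h1 h2, ?_⟩
    rintro y hy ⟨hy1, hy2⟩
    rw [eval_sbw]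
    have hY : (fun i : Fin n => y i.succ.succ) ≠ 0 := by
      intro h
      apply hy2
      funext i
      have := congrFun h i
      simp only [Pi.zero_apply] at this
      show σ (y i.succ.succ) = 0
      rw [this, map_zero]
    have h3 := hUf (y (Fin.succ 0)) (fun i => y i.succ.succ) (ch i₀ 1 (y 0)) hY
      (ch_ne one_ne_zero) ?_ ⟨1, s i₀, one_ne_zero, hs, ?_⟩ 1 b
    · rw [one_smul, one_mul] at h3
      have e : b • ch i₀ 1 (y 0) = ch i₀ b (y 0) := by
        funext j
        simp only [Pi.smul_apply, ch, smul_eq_mul]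
        by_cases hj : j = i₀
        · rw [if_pos hj, if_pos hj, mul_one]
        · rw [if_neg hj, if_neg hj, one_mul]
      rwa [e] at h3
    · have h4 : qv (Aat (AW Q i₀) (y 0)) (fun i => y i.succ) = 0 := hy
      rw [qv_AW] at h4
      have h5 := FF_ch Q i₀ 1 (y 0) (fun i : Fin n => y i.succ.succ)
      rw [one_pow, one_mul] at h5
      show y (Fin.succ 0) ^ 2 = FF Q (ch i₀ 1 (y 0)) (fun i : Fin n => y i.succ.succ)
      rw [h5]
      linarith
    · have e : ((1 : L) * s i₀ ^ k * σ (y (Fin.succ 0)),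
          (fun i : Fin n => (1 : L) * σ (y i.succ.succ)),
          fun j => s i₀ * σ (ch i₀ 1 (y 0) j)) = Φ fun i => σ (y i) := by
        rw [hΦ]
        refine Prod.ext ?_ (Prod.ext ?_ ?_)
        · simp only [one_mul]
        · funext i
          simp
        · funext j
          simp only [ch]
          by_cases hj : j = i₀
          · rw [if_pos hj, if_pos hj, map_one, mul_one]
          · rw [if_neg hj, if_neg hj, one_mul]
      rw [e]
      exact hy1
  · intro hf
    obtain ⟨V, hV, hVs⟩ := Filter.eventually_iff_exists_mem.1 (IA_stab σ (Sall (AW Q i₀))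
      (Fin.cons (s (1 - i₀) / s i₀)
        (Fin.cons (w / s i₀ ^ k) x : Fin (n + 1) → L) : Fin (n + 1 + 1) → L))
    -- the map of the cone to the chart
    have hcontΘ : ContinuousAt (fun p : L × (Fin n → L) × (Fin 2 → L) =>
        (Fin.cons (p.2.2 (1 - i₀) / p.2.2 i₀)
          (Fin.cons (p.1 / p.2.2 i₀ ^ k) p.2.1 : Fin (n + 1) → L) : Fin (n + 1 + 1) → L))
          (w, x, s) := by
      rw [continuousAt_pi]
      intro i
      refine Fin.cases ?_ (fun j => ?_) i
      · simp only [Fin.cons_zero]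
        exact ((continuous_apply (1 - i₀)).comp
          (continuous_snd.comp continuous_snd)).continuousAt.div
          ((continuous_apply i₀).comp (continuous_snd.comp continuous_snd)).continuousAt hs
      · simp only [Fin.cons_succ]
        refine Fin.cases ?_ (fun l => ?_) j
        · simp only [Fin.cons_zero]
          exact continuous_fst.continuousAt.div
            (((continuous_apply i₀).comp (continuous_snd.comp continuous_snd)).pow k).continuousAt
            hsk
        · simp only [Fin.cons_succ]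
          exact ((continuous_apply l).comp (continuous_fst.comp continuous_snd)).continuousAt
    have h1 : (fun p : L × (Fin n → L) × (Fin 2 → L) =>
        (Fin.cons (p.2.2 (1 - i₀) / p.2.2 i₀)
          (Fin.cons (p.1 / p.2.2 i₀ ^ k) p.2.1 : Fin (n + 1) → L) : Fin (n + 1 + 1) → L)) ⁻¹'
          (interior V) ∈ 𝓝 (w, x, s) :=
      hcontΘ.preimage_mem_nhds (isOpen_interior.mem_nhds (mem_interior_iff_mem_nhds.2 hV))
    have h2 : {p : L × (Fin n → L) × (Fin 2 → L) | p.2.2 i₀ ≠ 0} ∈ 𝓝 (w, x, s) := by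
      have : IsOpen {p : L × (Fin n → L) × (Fin 2 → L) | p.2.2 i₀ ≠ 0} :=
        isOpen_ne.preimage ((continuous_apply i₀).comp (continuous_snd.comp continuous_snd))
      exact this.mem_nhds hs
    refine ⟨_, inter_mem h1 h2, ?_⟩
    rintro W Y T hY hT hF ⟨c, e, hc, he, hce1, hce2⟩ a b
    have hTi : T i₀ ≠ 0 := by
      intro h
      apply hce2
      show e * σ (T i₀) = 0
      rw [h, map_zero, mul_zero]
    have hTk : T i₀ ^ k ≠ 0 := pow_ne_zero _ hTi
    have hσT : σ (T i₀) ≠ 0 := (map_ne_zero σ).2 hTi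
    set t : ℚ := T (1 - i₀) / T i₀ with ht
    have hTch : T = ch i₀ (T i₀) t := eq_ch hTi
    set W' : ℚ := W / T i₀ ^ k with hW'
    have hW : W = T i₀ ^ k * W' := by
      rw [hW']
      field_simp
    have hqt : W' ^ 2 = qv (Aat (AC Q i₀) t) Y := by
      have hF' : W ^ 2 = FF Q T Y := hF
      have h3 := FF_ch Q i₀ (T i₀) t Y
      rw [← hTch] at h3
      rw [h3, hW, mul_pow, ← pow_mul, mul_comm k 2] at hF'
      exact mul_left_cancel₀ (pow_ne_zero _ hTi) hF'
    have hce1' : (Fin.cons (σ t) (Fin.cons (c * σ W') (fun i => c * σ (Y i)) :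
        Fin (n + 1) → L) : Fin (n + 1 + 1) → L) ∈ interior V := by
      have e1 : (Fin.cons ((e * σ (T (1 - i₀))) / (e * σ (T i₀)))
          (Fin.cons ((c * e ^ k * σ W) / (e * σ (T i₀)) ^ k) (fun i => c * σ (Y i)) :
            Fin (n + 1) → L) : Fin (n + 1 + 1) → L) ∈ interior V := hce1
      have e2 : (e * σ (T (1 - i₀))) / (e * σ (T i₀)) = σ t := by
        rw [ht, map_div₀]
        field_simp
      have e3 : (c * e ^ k * σ W) / (e * σ (T i₀)) ^ k = c * σ W' := by
        rw [hW', map_div₀, map_pow, mul_pow]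
        field_simp
      rwa [e2, e3] at e1
    -- rational multiples
    have hcontc : Continuous fun c' : L => (Fin.cons (σ t) (Fin.cons (c' * σ W')
        (fun i => c' * σ (Y i)) : Fin (n + 1) → L) : Fin (n + 1 + 1) → L) := by
      refine continuous_pi fun i => ?_
      refine Fin.cases ?_ (fun j => ?_) i
      · simp only [Fin.cons_zero]
        exact continuous_const
      · simp only [Fin.cons_succ]
        refine Fin.cases ?_ (fun l => ?_) j
        · simp only [Fin.cons_zero]
          exact continuous_id.mul continuous_const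
        · simp only [Fin.cons_succ]
          exact continuous_id.mul continuous_const
    have hcU : (fun c' : L => (Fin.cons (σ t) (Fin.cons (c' * σ W')
        (fun i => c' * σ (Y i)) : Fin (n + 1) → L) : Fin (n + 1 + 1) → L)) ⁻¹'
        (interior V) ∈ 𝓝 c := hcontc.continuousAt.preimage_mem_nhds
          (isOpen_interior.mem_nhds hce1')
    have hinf := infinite_near' σ hσ hcU
    have hpf : PF1 fun c' : ℚ => MvPolynomial.eval (fun o : Option (Fin n ⊕ Fin 2) =>
        (fun (o : Option (Fin n ⊕ Fin 2)) (c' : ℚ) =>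
          (o.elim (c' * b ^ k * W) (Sum.elim (c' • Y) (b • T)) : ℚ)) o c') f := by
      refine PF1.eval (φ := fun (o : Option (Fin n ⊕ Fin 2)) (c' : ℚ) =>
          (o.elim (c' * b ^ k * W) (Sum.elim (c' • Y) (b • T)) : ℚ)) ?_ f
      rintro (_ | i | j)
      · simp only [Option.elim_none]
        exact (PF1.id'.mul (PF1.const _)).mul (PF1.const _)
      · simp only [Option.elim_some, Sum.elim_inl, Pi.smul_apply, smul_eq_mul]
        exact PF1.id'.mul (PF1.const _)
      · simp only [Option.elim_some, Sum.elim_inr]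
        exact PF1.const _
    refine hpf.zero (hinf.mono ?_) a
    rintro c' ⟨hc'1, -⟩
    show MvPolynomial.eval (fun o : Option (Fin n ⊕ Fin 2) =>
      (o.elim (c' * b ^ k * W) (Sum.elim (c' • Y) (b • T)) : ℚ)) f = 0
    have hmem : (Fin.cons t (Fin.cons (c' * W') (c' • Y) : Fin (n + 1) → ℚ) :
        Fin (n + 1 + 1) → ℚ) ∈ Sall (AW Q i₀) := by
      show qv (Aat (AW Q i₀) ((Fin.cons t (Fin.cons (c' * W') (c' • Y) : Fin (n + 1) → ℚ) :
        Fin (n + 1 + 1) → ℚ) 0))
        (fun i => (Fin.cons t (Fin.cons (c' * W') (c' • Y) : Fin (n + 1) → ℚ) :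
        Fin (n + 1 + 1) → ℚ) i.succ) = 0
      simp only [Fin.cons_zero, Fin.cons_succ]
      rw [qv_AW]
      simp only [Fin.cons_zero, Fin.cons_succ]
      have := qv_smul c' (Aat (AC Q i₀) t) Y
      rw [← hqt] at this
      have h6 : qv (Aat (AC Q i₀) t) (fun j => (c' • Y) j) = c' ^ 2 * W' ^ 2 := this
      rw [h6]
      ring
    have e3 : (fun i => σ ((Fin.cons t (Fin.cons (c' * W') (c' • Y) : Fin (n + 1) → ℚ) :
        Fin (n + 1 + 1) → ℚ) i)) =
        (Fin.cons (σ t) (Fin.cons (σ c' * σ W') (fun i => σ c' * σ (Y i)) :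
          Fin (n + 1) → L) : Fin (n + 1 + 1) → L) := by
      funext i
      refine Fin.cases ?_ (fun j => ?_) i
      · simp
      · refine Fin.cases ?_ (fun l => ?_) j <;> simp
    have h4 := hVs _ (interior_subset hc'1) (Fin.cons t (Fin.cons (c' * W') (c' • Y) :
      Fin (n + 1) → ℚ)) hmem e3 _ (hf (b * T i₀))
    rw [eval_sbw] at h4
    simp only [Fin.cons_zero, Fin.cons_succ] at h4
    have e4 : ch i₀ (b * T i₀) t = b • T := by
      conv_rhs => rw [hTch]
      funext j
      simp only [Pi.smul_apply, ch, smul_eq_mul]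
      by_cases hj : j = i₀
      · rw [if_pos hj, if_pos hj]
      · rw [if_neg hj, if_neg hj, mul_assoc]
    have e5 : (b * T i₀) ^ k * (c' * W') = c' * b ^ k * W := by
      rw [hW, mul_pow]
      ring
    rw [e4, e5] at h4
    exact h4

end DC

open DC in
theorem dc_ : S_DC := by
  intro L _ _ _ σ hσ k n Q hQ
  have h2 := Set.finite_iUnion fun i₀ : Fin 2 => (hQ i₀).image (PSw k i₀)
  refine h2.subset ?_
  rintro _ ⟨w, x, s, hx, hs, rfl⟩
  obtain ⟨i₀, hi₀⟩ : ∃ i₀, s i₀ ≠ 0 := by
    by_contra hcon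
    push Not at hcon
    exact hs (funext hcon)
  rw [Set.mem_iUnion]
  refine ⟨i₀, _, ⟨Fin.cons (s (1 - i₀) / s i₀) (Fin.cons (w / s i₀ ^ k) x : Fin (n + 1) → L),
    ?_, rfl⟩, (JW_eq σ hσ Q i₀ w x s hx hi₀).symm⟩
  show (fun i : Fin (n + 1) => (Fin.cons (s (1 - i₀) / s i₀)
    (Fin.cons (w / s i₀ ^ k) x : Fin (n + 1) → L) : Fin (n + 1 + 1) → L) i.succ) ≠ 0
  intro h
  apply hx
  funext i
  have h3 := congrFun h i.succ
  simpa using h3

end Pool.Agent.R847.QX
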