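import Pool.Agent.R847.QM.Bih

/-!
# Hypersurfaces with a linear subspace of codimension two of high multiplicity
(project QX, helper847)
-/

set_option autoImplicit false

namespace Pool.Agent.R847.QX

open Matrix Topology Filter
open Pool.Agent.TH729.CV (IA mem_IA FA IA_stab)
open Pool.Agent.Y720.MZ (FAon mem_IA_iff VI mem_VI infinite_near' PF1)
open Pool.Agent.R847.QM
open Pool.Agent.R847.QB (S_MAT)

variable {m : ℕ}

/-- the coordinates of the line -/
def T2 {R : Type} (v : Fin (m + 1 + 1) → R) : Fin 2 → R := ![v 0, v 1]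

/-- from the chart to the cone -/
def Ph {R : Type} [Mul R] (i₀ : Fin 2) (y : Fin (m + 1 + 1) → R) : Fin (m + 1 + 1) → R :=
  Fin.cons (ch i₀ (y 1) (y 0) 0) (Fin.cons (ch i₀ (y 1) (y 0) 1) (fun j => y j.succ.succ))

/-- to the chart -/
def Ps {R : Type} (i₀ : Fin 2) (t : R) (v : Fin (m + 1 + 1) → R) : Fin (m + 1 + 1) → R :=
  Fin.cons t (Fin.cons (T2 v i₀) (fun j => v j.succ.succ))

lemma T2_Ph {R : Type} [Mul R] (i₀ : Fin 2) (y : Fin (m + 1 + 1) → R) :
    T2 (Ph i₀ y) = ch i₀ (y 1) (y 0) := by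
  funext i
  fin_cases i
  · rfl
  · rfl

lemma Ph_Ps {R : Type} [Mul R] (i₀ : Fin 2) (t : R) (v : Fin (m + 1 + 1) → R)
    (h : T2 v (1 - i₀) = T2 v i₀ * t) : Ph i₀ (Ps i₀ t v) = v := by
  have e1 : (Ps i₀ t v) 1 = T2 v i₀ := rfl
  have e0 : (Ps i₀ t v) 0 = t := rfl
  funext i
  refine Fin.cases ?_ (fun i => Fin.cases ?_ (fun j => ?_) i) i
  · show ch i₀ ((Ps i₀ t v) 1) ((Ps i₀ t v) 0) 0 = v 0
    rw [e1, e0]
    fin_cases i₀
    · rfl
    · exact h.symm
  · show ch i₀ ((Ps i₀ t v) 1) ((Ps i₀ t v) 0) 1 = v 1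
    rw [e1, e0]
    fin_cases i₀
    · exact h.symm
    · rfl
  · rfl

lemma map_Ph {R S : Type} [Semiring R] [Semiring S] (φ : R →+* S) (i₀ : Fin 2)
    (y : Fin (m + 1 + 1) → R) : (fun i => φ (Ph i₀ y i)) = Ph i₀ fun i => φ (y i) := by
  funext i
  refine Fin.cases ?_ (fun i => Fin.cases ?_ (fun j => ?_) i) i
  · show φ (ch i₀ (y 1) (y 0) 0) = ch i₀ (φ (y 1)) (φ (y 0)) 0
    fin_cases i₀
    · rfl
    · exact map_mul φ _ _
  · show φ (ch i₀ (y 1) (y 0) 1) = ch i₀ (φ (y 1)) (φ (y 0)) 1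
    fin_cases i₀
    · exact map_mul φ _ _
    · rfl
  · rfl

lemma map_Ps {R S : Type} (φ : R → S) (i₀ : Fin 2) (t : R)
    (v : Fin (m + 1 + 1) → R) : (fun i => φ (Ps i₀ t v i)) = Ps i₀ (φ t) fun i => φ (v i) := by
  funext i
  refine Fin.cases ?_ (fun i => Fin.cases ?_ (fun j => ?_) i) i
  · rfl
  · show φ (T2 v i₀) = T2 (fun i => φ (v i)) i₀
    fin_cases i₀ <;> rfl
  · rfl

lemma continuous_T2 {L : Type} [TopologicalSpace L] (i : Fin 2) :
    Continuous fun v : Fin (m + 1 + 1) → L => T2 v i := by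
  fin_cases i
  · exact continuous_apply _
  · exact continuous_apply _

lemma continuous_Ph {L : Type} [NontriviallyNormedField L] (i₀ : Fin 2) :
    Continuous fun y : Fin (m + 1 + 1) → L => Ph i₀ y := by
  refine continuous_pi fun i => ?_
  refine Fin.cases ?_ (fun i => Fin.cases ?_ (fun j => ?_) i) i
  · show Continuous fun y : Fin (m + 1 + 1) → L => ch i₀ (y 1) (y 0) 0
    fin_cases i₀
    · exact continuous_apply _
    · exact (continuous_apply _).mul (continuous_apply _)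
  · show Continuous fun y : Fin (m + 1 + 1) → L => ch i₀ (y 1) (y 0) 1
    fin_cases i₀
    · exact (continuous_apply _).mul (continuous_apply _)
    · exact continuous_apply _
  · exact continuous_apply _

lemma continuous_Ps {L : Type} [TopologicalSpace L] (i₀ : Fin 2) :
    Continuous fun p : (Fin (m + 1 + 1) → L) × L => Ps i₀ p.2 p.1 := by
  refine continuous_pi fun i => ?_
  refine Fin.cases ?_ (fun i => Fin.cases ?_ (fun j => ?_) i) i
  · exact continuous_snd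
  · exact (continuous_T2 i₀).comp continuous_fst
  · show Continuous fun p : (Fin (m + 1 + 1) → L) × L => p.1 j.succ.succ
    exact (continuous_apply j.succ.succ).comp continuous_fst

/-- compactness of the exceptional fibres -/
lemma tube {L : Type} [NontriviallyNormedField L] [CompleteSpace L] [CharZero L] [ProperSpace L]
    (σ : ℚ →+* L) (i₀ : Fin 2) (P : Set (Fin (m + 1 + 1) → ℚ)) (x : Fin (m + 1 + 1) → L)
    (g : MvPolynomial (Fin (m + 1 + 1)) ℚ)
    (h : ∀ t₀ : L, ‖t₀‖ ≤ 1 → T2 x (1 - i₀) = T2 x i₀ * t₀ → g ∈ IA σ P (Ps i₀ t₀ x)) :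
    ∀ᶠ v in 𝓝 x, ∀ t ∈ Metric.closedBall (0 : L) 1, T2 v (1 - i₀) = T2 v i₀ * t →
      ∀ y ∈ P, (fun i => σ (y i)) = Ps i₀ t v → MvPolynomial.eval y g = 0 := by
  refine IsCompact.eventually_forall_of_forall_eventually (isCompact_closedBall (0 : L) 1)
    (P := fun (v : Fin (m + 1 + 1) → L) (t : L) => T2 v (1 - i₀) = T2 v i₀ * t →
      ∀ y ∈ P, (fun i => σ (y i)) = Ps i₀ t v → MvPolynomial.eval y g = 0) ?_
  intro t₀ ht₀
  by_cases hc : T2 x (1 - i₀) = T2 x i₀ * t₀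
  · have h1 := mem_IA.1 (h t₀ (by simpa using ht₀) hc)
    have h2 := (continuous_Ps (m := m) (L := L) i₀).continuousAt (x := (x, t₀)) |>.eventually h1
    filter_upwards [h2] with p hp _ y hy hyp
    exact hp y hy hyp
  · have hcont : Continuous fun p : (Fin (m + 1 + 1) → L) × L =>
        T2 p.1 (1 - i₀) - T2 p.1 i₀ * p.2 :=
      ((continuous_T2 _).comp continuous_fst).sub
        (((continuous_T2 _).comp continuous_fst).mul continuous_snd)
    have h1 : ∀ᶠ p : (Fin (m + 1 + 1) → L) × L in 𝓝 (x, t₀),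
        T2 p.1 (1 - i₀) - T2 p.1 i₀ * p.2 ≠ 0 :=
      hcont.continuousAt.eventually_ne (by simpa [sub_eq_zero] using hc)
    filter_upwards [h1] with p hp hp'
    exact absurd (sub_eq_zero.2 hp') hp

/-- substitution -/
noncomputable def pb (i₀ : Fin 2) :
    MvPolynomial (Fin (m + 1 + 1)) ℚ →ₐ[ℚ] MvPolynomial (Fin (m + 1 + 1)) ℚ :=
  MvPolynomial.aeval (Ph i₀ fun i => MvPolynomial.X i)

lemma eval_pb (i₀ : Fin 2) (f : MvPolynomial (Fin (m + 1 + 1)) ℚ) (y : Fin (m + 1 + 1) → ℚ) :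
    MvPolynomial.eval y (pb i₀ f) = MvPolynomial.eval (Ph i₀ y) f := by
  have h1 : (MvPolynomial.aeval y : MvPolynomial (Fin (m + 1 + 1)) ℚ →ₐ[ℚ] ℚ).comp (pb i₀) =
      MvPolynomial.aeval (Ph i₀ y) := by
    apply MvPolynomial.algHom_ext
    intro i
    rw [AlgHom.comp_apply, pb, MvPolynomial.aeval_X, MvPolynomial.aeval_X]
    have h2 := congrFun (map_Ph (m := m) ((MvPolynomial.aeval y :
      MvPolynomial (Fin (m + 1 + 1)) ℚ →ₐ[ℚ] ℚ) : MvPolynomial (Fin (m + 1 + 1)) ℚ →+* ℚ) i₀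
      (fun i => MvPolynomial.X i)) i
    simpa using h2
  have h2 := DFunLike.congr_fun h1 f
  rw [AlgHom.comp_apply, MvPolynomial.aeval_eq_eval, MvPolynomial.aeval_eq_eval] at h2
  exact h2

/-- the form of the hypersurface -/
noncomputable def HF (A : Matrix (Fin (m + 1)) (Fin (m + 1)) (MvPolynomial (Fin 2) ℚ))
    (v : Fin (m + 1 + 1) → ℚ) : ℚ :=
  ∑ j, ∑ k, MvPolynomial.eval (T2 v) (A j k) *
    ((Fin.cons 1 (fun i => v i.succ.succ) : Fin (m + 1) → ℚ) j *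
      (Fin.cons 1 (fun i => v i.succ.succ) : Fin (m + 1) → ℚ) k)

/-- the matrix of a chart -/
noncomputable def AH (A : Matrix (Fin (m + 1)) (Fin (m + 1)) (MvPolynomial (Fin 2) ℚ))
    (i₀ : Fin 2) : Matrix (Fin (m + 1)) (Fin (m + 1)) (Polynomial ℚ) :=
  A.map (MvPolynomial.aeval (ch i₀ 1 Polynomial.X))

lemma Aat_AH (A : Matrix (Fin (m + 1)) (Fin (m + 1)) (MvPolynomial (Fin 2) ℚ)) (i₀ : Fin 2)
    (t : ℚ) (j k : Fin (m + 1)) :
    Aat (AH A i₀) t j k = MvPolynomial.eval (ch i₀ 1 t) (A j k) := by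
  unfold Aat AH
  rw [Matrix.map_apply, Matrix.map_apply]
  have h1 : (Polynomial.aeval t : Polynomial ℚ →ₐ[ℚ] ℚ).comp
      (MvPolynomial.aeval (ch i₀ 1 Polynomial.X)) = MvPolynomial.aeval (ch i₀ 1 t) := by
    apply MvPolynomial.algHom_ext
    intro i
    rw [AlgHom.comp_apply, MvPolynomial.aeval_X, MvPolynomial.aeval_X]
    simp only [ch]
    by_cases hi : i = i₀
    · rw [if_pos hi, if_pos hi, map_one]
    · rw [if_neg hi, if_neg hi, one_mul, one_mul, Polynomial.aeval_X]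
  have h2 := DFunLike.congr_fun h1 (A j k)
  rw [AlgHom.comp_apply, MvPolynomial.aeval_eq_eval, Polynomial.coe_aeval_eq_eval] at h2
  exact h2

lemma eval_hom {n : ℕ} {p : MvPolynomial (Fin 2) ℚ} (hp : p.IsHomogeneous n) (c : ℚ)
    (T : Fin 2 → ℚ) :
    MvPolynomial.eval (fun i => c * T i) p = c ^ n * MvPolynomial.eval T p := by
  rw [MvPolynomial.eval_eq', MvPolynomial.eval_eq', Finset.mul_sum]
  refine Finset.sum_congr rfl fun d hd => ?_
  have h1 : d 0 + d 1 = n := by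
    have := hp (MvPolynomial.mem_support_iff.1 hd)
    rw [Finsupp.weight_apply, Finsupp.sum_fintype _ _ (by simp)] at this
    simpa [Fin.sum_univ_two] using this
  rw [Fin.prod_univ_two, Fin.prod_univ_two, ← h1, mul_pow, mul_pow, pow_add]
  ring

/-- degrees of the entries -/
def dg (e : ℕ) (j k : Fin (m + 1)) : ℕ :=
  e + (if j = 0 then 1 else 0) + (if k = 0 then 1 else 0)

lemma term (e : ℕ) (l a : ℚ) (Y : Fin m → ℚ) (j k : Fin (m + 1)) :
    l ^ dg e j k * a * ((Fin.cons 1 Y : Fin (m + 1) → ℚ) j * (Fin.cons 1 Y : Fin (m + 1) → ℚ) k) =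
      l ^ e * ((Fin.cons l Y : Fin (m + 1) → ℚ) j * a * (Fin.cons l Y : Fin (m + 1) → ℚ) k) := by
  refine Fin.cases ?_ (fun j => ?_) j <;> refine Fin.cases ?_ (fun k => ?_) k
  · simp only [dg, Fin.cons_zero, if_true]
    ring
  · simp only [dg, Fin.cons_zero, Fin.cons_succ, if_true, Fin.succ_ne_zero, if_false]
    ring
  · simp only [dg, Fin.cons_zero, Fin.cons_succ, if_true, Fin.succ_ne_zero, if_false]
    ring
  · simp only [dg, Fin.cons_succ, Fin.succ_ne_zero, if_false]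
    ring

lemma HF_Ph {e : ℕ} (A : Matrix (Fin (m + 1)) (Fin (m + 1)) (MvPolynomial (Fin 2) ℚ))
    (hA : ∀ j k, (A j k).IsHomogeneous (dg e j k)) (i₀ : Fin 2) (y : Fin (m + 1 + 1) → ℚ) :
    HF A (Ph i₀ y) = y 1 ^ e * qv (Aat (AH A i₀) (y 0)) (fun i => y i.succ) := by
  have h0 : (fun i : Fin (m + 1) => y i.succ) = Fin.cons (y 1) (fun i : Fin m => y i.succ.succ) := by
    funext i
    refine Fin.cases ?_ (fun i => ?_) i
    · rfl
    · rfl
  have hch : ch i₀ (y 1) (y 0) = fun i => y 1 * ch i₀ 1 (y 0) i := by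
    funext i
    simp only [ch]
    by_cases hi : i = i₀
    · rw [if_pos hi, if_pos hi, mul_one]
    · rw [if_neg hi, if_neg hi, one_mul]
  unfold HF
  rw [T2_Ph, hch, h0, qv, dotProduct, Finset.mul_sum]
  refine Finset.sum_congr rfl fun j _ => ?_
  rw [mulVec, dotProduct, Finset.mul_sum, Finset.mul_sum]
  refine Finset.sum_congr rfl fun k _ => ?_
  rw [eval_hom (hA j k), Aat_AH]
  have h1 := term e (y 1) (MvPolynomial.eval (ch i₀ 1 (y 0)) (A j k))
    (fun i : Fin m => y i.succ.succ) j k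
  have h2 : (fun i : Fin m => Ph i₀ y i.succ.succ) = fun i : Fin m => y i.succ.succ := rfl
  rw [h2, h1]
  ring

/-- the rational points of the affine cone -/
def VV (A : Matrix (Fin (m + 1)) (Fin (m + 1)) (MvPolynomial (Fin 2) ℚ)) :
    Set (Fin (m + 1 + 1) → ℚ) := {v | HF A v = 0}

/-- the subspace -/
def LL : Set (Fin (m + 1 + 1) → ℚ) := {v | v 0 = 0 ∧ v 1 = 0}

lemma LL_sub {e : ℕ} (he : 1 ≤ e)
    (A : Matrix (Fin (m + 1)) (Fin (m + 1)) (MvPolynomial (Fin 2) ℚ))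
    (hA : ∀ j k, (A j k).IsHomogeneous (dg e j k)) : LL ⊆ VV A := by
  rintro v ⟨h0, h1⟩
  show HF A v = 0
  unfold HF
  refine Finset.sum_eq_zero fun j _ => Finset.sum_eq_zero fun k _ => ?_
  have h2 : T2 v = fun i => (0 : ℚ) * T2 v i := by
    funext i
    fin_cases i
    · show v 0 = 0 * v 0
      rw [h0, mul_zero]
    · show v 1 = 0 * v 1
      rw [h1, mul_zero]
  rw [h2, eval_hom (hA j k), zero_pow (by unfold dg; omega), zero_mul, zero_mul]

lemma FA_LL {L : Type} [NontriviallyNormedField L] [CompleteSpace L] [CharZero L] [ProperSpace L]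
    (σ : ℚ →+* L) (hσ : DenseRange σ) : FA σ (LL : Set (Fin (m + 1 + 1) → ℚ)) := by
  have h1 := FA.block σ hσ (f := (MvPolynomial.X 0 : MvPolynomial (Fin (m + 1 + 1)) ℚ))
    (g := MvPolynomial.X 1) (Or.inl ⟨by simp, by simp⟩)
  convert h1 using 1
  ext y
  simp only [LL, Set.mem_ofPred_eq, MvPolynomial.eval_X]

/-- **the local ideals of the hypersurface** -/
theorem hyp_iff {L : Type} [NontriviallyNormedField L] [CompleteSpace L] [CharZero L]
    [ProperSpace L] (σ : ℚ →+* L) {e : ℕ} (he : 1 ≤ e)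
    (A : Matrix (Fin (m + 1)) (Fin (m + 1)) (MvPolynomial (Fin 2) ℚ))
    (hA : ∀ j k, (A j k).IsHomogeneous (dg e j k)) (x : Fin (m + 1 + 1) → L)
    (f : MvPolynomial (Fin (m + 1 + 1)) ℚ) :
    f ∈ IA σ (VV A) x ↔ f ∈ IA σ (LL : Set (Fin (m + 1 + 1) → ℚ)) x ∧
      ∀ i₀ : Fin 2, ∀ t₀ : L, ‖t₀‖ ≤ 1 → T2 x (1 - i₀) = T2 x i₀ * t₀ →
        pb i₀ f ∈ IA σ (Sall (AH A i₀)) (Ps i₀ t₀ x) := by
  have hcase : ∀ i₀ j : Fin 2, j = i₀ ∨ j = 1 - i₀ := by
    intro i₀ j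
    fin_cases i₀ <;> fin_cases j <;> decide
  constructor
  · intro hf
    obtain ⟨U, hU, hfU⟩ := mem_IA_iff.1 hf
    refine ⟨mem_IA_iff.2 ⟨U, hU, fun y hy hyU => hfU y (LL_sub he A hA hy) hyU⟩, ?_⟩
    intro i₀ t₀ _ hx
    rw [mem_IA_iff]
    refine ⟨(fun y : Fin (m + 1 + 1) → L => Ph i₀ y) ⁻¹' U, ?_, ?_⟩
    · apply (continuous_Ph (m := m) (L := L) i₀).continuousAt.preimage_mem_nhds
      rw [Ph_Ps i₀ t₀ x hx]
      exact hU
    · intro y hy hyU
      rw [eval_pb]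
      apply hfU
      · show HF A (Ph i₀ y) = 0
        rw [HF_Ph A hA]
        have : qv (Aat (AH A i₀) (y 0)) (fun i => y i.succ) = 0 := hy
        rw [this, mul_zero]
      · rw [map_Ph]
        exact hyU
  · rintro ⟨hL, hP⟩
    rw [mem_IA]
    have h1 := fun i₀ : Fin 2 => tube σ i₀ (Sall (AH A i₀)) x (pb i₀ f) (hP i₀)
    filter_upwards [mem_IA.1 hL, h1 0, h1 1] with v hv0 hvA hvB y hy hyv
    have h2 : ∀ i₀ : Fin 2, ∀ t ∈ Metric.closedBall (0 : L) 1, T2 v (1 - i₀) = T2 v i₀ * t →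
        ∀ y ∈ Sall (AH A i₀), (fun i => σ (y i)) = Ps i₀ t v →
          MvPolynomial.eval y (pb i₀ f) = 0 := by
      intro i₀
      have : i₀ = 0 ∨ i₀ = 1 := by fin_cases i₀ <;> simp
      rcases this with rfl | rfl
      · exact hvA
      · exact hvB
    by_cases hz : y 0 = 0 ∧ y 1 = 0
    · exact hv0 y hz hyv
    · -- the larger coordinate
      obtain ⟨i₀, hi₀, hmax⟩ : ∃ i₀ : Fin 2, T2 y i₀ ≠ 0 ∧
          ‖σ (T2 y (1 - i₀))‖ ≤ ‖σ (T2 y i₀)‖ := by
        rcases le_total ‖σ (y 0)‖ ‖σ (y 1)‖ with hle | hle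
        · refine ⟨1, ?_, hle⟩
          intro h
          have h1 : y 1 = 0 := h
          rw [h1, map_zero, norm_zero] at hle
          have h3 : y 0 = 0 := (map_eq_zero σ).1 (norm_le_zero_iff.1 hle)
          exact hz ⟨h3, h1⟩
        · refine ⟨0, ?_, hle⟩
          intro h
          have h1 : y 0 = 0 := h
          rw [h1, map_zero, norm_zero] at hle
          have h3 : y 1 = 0 := (map_eq_zero σ).1 (norm_le_zero_iff.1 hle)
          exact hz ⟨h1, h3⟩
      set t : ℚ := T2 y (1 - i₀) / T2 y i₀ with ht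
      have ht' : T2 y (1 - i₀) = T2 y i₀ * t := by
        rw [ht]
        field_simp
      have hPh := Ph_Ps i₀ t y ht'
      have hmem : Ps i₀ t y ∈ Sall (AH A i₀) := by
        have h4 := HF_Ph A hA i₀ (Ps i₀ t y)
        rw [hPh] at h4
        have h5 : HF A y = 0 := hy
        rw [h5] at h4
        have h6 : (Ps i₀ t y) 1 = T2 y i₀ := rfl
        rw [h6] at h4
        rcases mul_eq_zero.1 h4.symm with h7 | h7
        · exact absurd h7 (pow_ne_zero _ hi₀)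
        · exact h7
      have hσT : ∀ j : Fin 2, T2 v j = σ (T2 y j) := by
        intro j
        rw [← hyv]
        fin_cases j <;> rfl
      have h8 := h2 i₀ (σ t) ?_ ?_ (Ps i₀ t y) hmem ?_
      · rw [eval_pb, hPh] at h8
        exact h8
      · rw [mem_closedBall_zero_iff, ht, map_div₀, norm_div]
        exact div_le_one_of_le₀ hmax (norm_nonneg _)
      · rw [hσT, hσT, ← map_mul, ← ht']
      · rw [map_Ps, hyv]

theorem hyp_FAon {L : Type} [NontriviallyNormedField L] [CompleteSpace L] [CharZero L]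
    [ProperSpace L] (σ : ℚ →+* L) (hσ : DenseRange σ) {e : ℕ} (he : 1 ≤ e)
    (A : Matrix (Fin (m + 1)) (Fin (m + 1)) (MvPolynomial (Fin 2) ℚ))
    (hA : ∀ j k, (A j k).IsHomogeneous (dg e j k))
    (hP : ∀ i₀ : Fin 2, FAon σ (Sall (AH A i₀))
      {x : Fin (m + 1 + 1) → L | (fun i : Fin (m + 1) => x i.succ) ≠ 0}) :
    FAon σ (VV A) {x : Fin (m + 1 + 1) → L | x ≠ 0} := by
  classical
  have hLL : (Set.range fun x : Fin (m + 1 + 1) → L =>
      IA σ (LL : Set (Fin (m + 1 + 1) → ℚ)) x).Finite := FA_LL σ hσ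
  -- the families of ideals
  set F : Fin 2 → Set (Ideal (MvPolynomial (Fin (m + 1 + 1)) ℚ)) := fun i₀ =>
    (fun x : Fin (m + 1 + 1) → L => IA σ (Sall (AH A i₀)) x) ''
      {x : Fin (m + 1 + 1) → L | (fun i : Fin (m + 1) => x i.succ) ≠ 0} with hF
  have hfin : ∀ i₀, (F i₀).Finite := hP
  have hpow : (Set.pi Set.univ fun i₀ : Fin 2 => 𝒫 (F i₀)).Finite :=
    Set.Finite.pi fun i₀ => (hfin i₀).powerset
  have hprod := hLL.prod hpow
  refine Set.Finite.of_finite_image (f := fun I : Ideal (MvPolynomial (Fin (m + 1 + 1)) ℚ) =>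
    (I : Set (MvPolynomial (Fin (m + 1 + 1)) ℚ))) ?_ SetLike.coe_injective.injOn
  refine (hprod.image fun p => {f : MvPolynomial (Fin (m + 1 + 1)) ℚ | f ∈ p.1 ∧
    ∀ i₀ : Fin 2, ∀ I ∈ p.2 i₀, pb i₀ f ∈ I}).subset ?_
  rintro _ ⟨_, ⟨x, hx, rfl⟩, rfl⟩
  refine ⟨(IA σ LL x, fun i₀ => {I | ∃ t₀ : L, ‖t₀‖ ≤ 1 ∧ T2 x (1 - i₀) = T2 x i₀ * t₀ ∧
    I = IA σ (Sall (AH A i₀)) (Ps i₀ t₀ x)}), ⟨⟨x, rfl⟩, ?_⟩, ?_⟩
  · intro i₀ _ I hI
    obtain ⟨t₀, ht₀, hxt, rfl⟩ := hI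
    refine ⟨Ps i₀ t₀ x, ?_, rfl⟩
    intro h0
    apply hx
    have h1 : T2 x i₀ = 0 := congrFun h0 0
    have h2 : T2 x (1 - i₀) = 0 := by rw [hxt, h1, zero_mul]
    have h3 : ∀ j : Fin 2, T2 x j = 0 := by
      intro j
      have : j = i₀ ∨ j = 1 - i₀ := by
        fin_cases i₀ <;> fin_cases j <;> decide
      rcases this with rfl | rfl
      · exact h1
      · exact h2
    funext i
    refine Fin.cases ?_ (fun i => Fin.cases ?_ (fun j => ?_) i) i
    · exact h3 0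
    · exact h3 1
    · exact congrFun h0 j.succ
  · ext f
    show (f ∈ IA σ LL x ∧ ∀ i₀ : Fin 2, ∀ I ∈ _, pb i₀ f ∈ I) ↔ f ∈ IA σ (VV A) x
    rw [hyp_iff σ he A hA]
    refine and_congr Iff.rfl (forall_congr' fun i₀ => ?_)
    constructor
    · intro h t₀ h1 h2
      exact h _ ⟨t₀, h1, h2, rfl⟩
    · rintro h _ ⟨t₀, h1, h2, rfl⟩
      exact h t₀ h1 h2

end Pool.Agent.R847.QX
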