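import Pool.Agent.R847.QX.Hyp

/-!
# Hypersurfaces with a linear subspace of codimension two of high multiplicity: conclusion
(project QX, helper847)
-/

set_option autoImplicit false

namespace Pool.Agent.R847.QX

open Matrix Topology Filter
open Pool.Agent.TH729.CV (IA mem_IA FA IA_stab)
open Pool.Agent.Y720.MZ (FAon mem_IA_iff VI mem_VI infinite_near' PF1)
open Pool.Agent.R847.QM
open Pool.Agent.R847.QB (S_MAT)

/-- local ideals of cones in homogeneous coordinates -/
lemma cone_J {L : Type} [NontriviallyNormedField L] [CompleteSpace L] [CharZero L] (σ : ℚ →+* L)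
    (hσ : DenseRange σ) {n : ℕ} (V : Set (Fin n → ℚ)) (hV : ∀ y ∈ V, ∀ c : ℚ, c • y ∈ V)
    (x : Fin n → L) (hx : x ≠ 0) :
    {f : MvPolynomial (Fin n) ℚ | ∃ U ∈ 𝓝 x, ∀ y : Fin n → ℚ, y ≠ 0 → y ∈ V →
      (∃ c : L, c ≠ 0 ∧ (fun i => c * σ (y i)) ∈ U) →
      ∀ a : ℚ, MvPolynomial.eval (a • y) f = 0} = (IA σ V x : Set (MvPolynomial (Fin n) ℚ)) := by
  ext f
  constructor
  · rintro ⟨U, hU, hf⟩
    refine mem_IA_iff.2 ⟨U ∩ {v | v ≠ 0}, inter_mem hU (isOpen_ne.mem_nhds hx), ?_⟩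
    rintro y hy ⟨hyU, hy0⟩
    have hne : y ≠ 0 := by
      rintro rfl
      apply hy0
      funext i
      exact map_zero σ
    have h1 := hf y hne hy ⟨1, one_ne_zero, by simpa using hyU⟩ 1
    rwa [one_smul] at h1
  · intro hf
    obtain ⟨U, hU, hfU⟩ := mem_IA_iff.1 hf
    refine ⟨interior U, isOpen_interior.mem_nhds (mem_interior_iff_mem_nhds.2 hU), ?_⟩
    rintro y hy0 hy ⟨c, hc, hcU⟩ a
    have hcont : Continuous fun c' : L => fun i => c' * σ (y i) :=
      continuous_pi fun i => continuous_id.mul continuous_const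
    have hcn : (fun c' : L => fun i => c' * σ (y i)) ⁻¹' (interior U) ∈ 𝓝 c :=
      hcont.continuousAt.preimage_mem_nhds (isOpen_interior.mem_nhds hcU)
    have hinf := infinite_near' σ hσ hcn
    have hpf : PF1 fun c' : ℚ => MvPolynomial.eval (fun i : Fin n =>
        (fun (i : Fin n) (c' : ℚ) => (c' • y) i) i c') f := by
      refine PF1.eval (φ := fun (i : Fin n) (c' : ℚ) => (c' • y) i) ?_ f
      intro i
      simp only [Pi.smul_apply, smul_eq_mul]
      exact PF1.id'.mul (PF1.const _)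
    refine hpf.zero (hinf.mono ?_) a
    rintro c' ⟨hc'1, -⟩
    show MvPolynomial.eval (c' • y) f = 0
    refine hfU _ (hV y hy c') ?_
    have e : (fun i => σ ((c' • y) i)) = fun i => σ c' * σ (y i) := by
      funext i
      rw [Pi.smul_apply, smul_eq_mul, map_mul]
    rw [e]
    exact interior_subset hc'1

variable {m : ℕ}

lemma AH_symm (A : Matrix (Fin (m + 1)) (Fin (m + 1)) (MvPolynomial (Fin 2) ℚ)) (hA : A.IsSymm)
    (i₀ : Fin 2) : (AH A i₀).IsSymm := hA.map _

lemma map_scale {e : ℕ} (A : Matrix (Fin (m + 1)) (Fin (m + 1)) (MvPolynomial (Fin 2) ℚ))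
    (hA : ∀ j k, (A j k).IsHomogeneous (dg e j k)) (c : ℚ) (T : Fin 2 → ℚ) :
    A.map (MvPolynomial.eval (fun i => c * T i)) =
      c ^ e • (Matrix.diagonal (fun j : Fin (m + 1) => if j = 0 then c else 1) *
        A.map (MvPolynomial.eval T) *
          Matrix.diagonal (fun j : Fin (m + 1) => if j = 0 then c else 1)) := by
  ext j k
  rw [Matrix.map_apply, Matrix.smul_apply, Matrix.mul_diagonal, Matrix.diagonal_mul,
    Matrix.map_apply, eval_hom (hA j k), smul_eq_mul, dg]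
  by_cases hj : j = 0 <;> by_cases hk : k = 0
  · rw [if_pos hj, if_pos hk, if_pos hj, if_pos hk]
    ring
  · rw [if_pos hj, if_neg hk, if_pos hj, if_neg hk]
    ring
  · rw [if_neg hj, if_pos hk, if_neg hj, if_pos hk]
    ring
  · rw [if_neg hj, if_neg hk, if_neg hj, if_neg hk]
    ring

lemma det_AH_ne {e : ℕ} (A : Matrix (Fin (m + 1)) (Fin (m + 1)) (MvPolynomial (Fin 2) ℚ))
    (hA : ∀ j k, (A j k).IsHomogeneous (dg e j k)) (hdet : A.det ≠ 0) (i₀ : Fin 2) :
    (AH A i₀).det ≠ 0 := by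
  intro h0
  -- a point where the determinant and the coordinate do not vanish
  have hne : A.det * MvPolynomial.X i₀ ≠ 0 := mul_ne_zero hdet (MvPolynomial.X_ne_zero i₀)
  obtain ⟨T, hT⟩ : ∃ T : Fin 2 → ℚ, MvPolynomial.eval T (A.det * MvPolynomial.X i₀) ≠ 0 := by
    by_contra hcon
    push Not at hcon
    apply hne
    apply MvPolynomial.funext
    intro T
    rw [hcon T, map_zero]
  rw [map_mul, MvPolynomial.eval_X] at hT
  have hT1 := left_ne_zero_of_mul hT
  have hT2 := right_ne_zero_of_mul hT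
  apply hT1
  have hcase : ∀ j : Fin 2, j = i₀ ∨ j = 1 - i₀ := by
    intro j
    fin_cases i₀ <;> fin_cases j <;> decide
  set t : ℚ := T (1 - i₀) / T i₀ with ht
  have hTt : T = fun i => T i₀ * ch i₀ 1 t i := by
    funext i
    rcases hcase i with rfl | hi
    · simp [ch]
    · have hne : (1 - i₀ : Fin 2) ≠ i₀ := by fin_cases i₀ <;> decide
      rw [hi]
      simp only [ch, if_neg hne, one_mul]
      rw [ht]
      field_simp
  have hmap : ∀ S : Fin 2 → ℚ, (A.map (MvPolynomial.eval S)).det = MvPolynomial.eval S A.det :=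
    fun S => ((MvPolynomial.eval S).map_det A).symm
  have h1 : (A.map (MvPolynomial.eval (ch i₀ 1 t))).det = 0 := by
    have h2 := det_Aat (AH A i₀) t
    rw [h0, Polynomial.eval_zero] at h2
    rw [← h2]
    congr 1
    ext j k
    rw [Aat_AH, Matrix.map_apply]
  rw [← hmap T, hTt, map_scale A hA, Matrix.det_smul, Matrix.det_mul, Matrix.det_mul]
  rw [h1]
  ring

lemma HF_smul {e : ℕ} (A : Matrix (Fin (m + 1)) (Fin (m + 1)) (MvPolynomial (Fin 2) ℚ))
    (hA : ∀ j k, (A j k).IsHomogeneous (dg e j k)) (c : ℚ) (y : Fin (m + 1 + 1) → ℚ) :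
    HF A (c • y) = c ^ (e + 2) * HF A y := by
  have hT : T2 (c • y) = fun i => c * T2 y i := by
    funext i
    fin_cases i <;> rfl
  unfold HF
  rw [hT, Finset.mul_sum]
  refine Finset.sum_congr rfl fun j _ => ?_
  rw [Finset.mul_sum]
  refine Finset.sum_congr rfl fun k _ => ?_
  rw [eval_hom (hA j k)]
  refine Fin.cases ?_ (fun j => ?_) j <;> refine Fin.cases ?_ (fun k => ?_) k
  · simp only [dg, Fin.cons_zero, if_true]
    ring
  · simp only [dg, Fin.cons_zero, Fin.cons_succ, if_true, Fin.succ_ne_zero, if_false,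
      Pi.smul_apply, smul_eq_mul]
    ring
  · simp only [dg, Fin.cons_zero, Fin.cons_succ, if_true, Fin.succ_ne_zero, if_false,
      Pi.smul_apply, smul_eq_mul]
    ring
  · simp only [dg, Fin.cons_succ, Fin.succ_ne_zero, if_false, Pi.smul_apply, smul_eq_mul]
    ring

/-- the polynomial of the hypersurface -/
noncomputable def Fm (A : Matrix (Fin (m + 1)) (Fin (m + 1)) (MvPolynomial (Fin 2) ℚ)) :
    MvPolynomial (Fin (m + 2)) ℚ :=
  ∑ j, ∑ k, MvPolynomial.aeval ![MvPolynomial.X 0, MvPolynomial.X 1] (A j k) *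
    ((Fin.cons 1 (fun i => MvPolynomial.X i.succ.succ) :
        Fin (m + 1) → MvPolynomial (Fin (m + 2)) ℚ) j *
      (Fin.cons 1 (fun i => MvPolynomial.X i.succ.succ) :
        Fin (m + 1) → MvPolynomial (Fin (m + 2)) ℚ) k)

lemma eval_Fm (A : Matrix (Fin (m + 1)) (Fin (m + 1)) (MvPolynomial (Fin 2) ℚ))
    (y : Fin (m + 1 + 1) → ℚ) : MvPolynomial.eval y (Fm A) = HF A y := by
  unfold Fm HF
  rw [map_sum]
  refine Finset.sum_congr rfl fun j _ => ?_
  rw [map_sum]
  refine Finset.sum_congr rfl fun k _ => ?_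
  rw [map_mul, map_mul]
  have h1 : (MvPolynomial.aeval y : MvPolynomial (Fin (m + 2)) ℚ →ₐ[ℚ] ℚ).comp
      (MvPolynomial.aeval ![MvPolynomial.X 0, MvPolynomial.X 1]) =
      MvPolynomial.aeval (T2 y) := by
    apply MvPolynomial.algHom_ext
    intro i
    rw [AlgHom.comp_apply, MvPolynomial.aeval_X, MvPolynomial.aeval_X]
    fin_cases i
    · simp [T2]
    · simp [T2]
  have h2 := DFunLike.congr_fun h1 (A j k)
  rw [AlgHom.comp_apply, MvPolynomial.aeval_eq_eval, MvPolynomial.aeval_eq_eval] at h2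
  have h3 : ∀ l : Fin (m + 1), MvPolynomial.eval y
      ((Fin.cons 1 (fun i => MvPolynomial.X i.succ.succ) :
        Fin (m + 1) → MvPolynomial (Fin (m + 2)) ℚ) l) =
      (Fin.cons 1 (fun i => y i.succ.succ) : Fin (m + 1) → ℚ) l := by
    intro l
    refine Fin.cases ?_ (fun l => ?_) l
    · simp
    · simp
  rw [h3, h3]
  rw [← h2]

/-- **hypersurfaces with a linear subspace of codimension two and high multiplicity** -/
theorem hyp_main (hNEAR : S_NEAR) (hLIFT : S_LIFT) (hGLOB : S_GLOB) (hALG : S_ALG)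
    (hMAT : S_MAT) {L : Type} [NontriviallyNormedField L] [CompleteSpace L] [CharZero L]
    [ProperSpace L] (σ : ℚ →+* L) (hσ : DenseRange σ) {e : ℕ} (hm : 4 ≤ m) (he : 1 ≤ e)
    (A : Matrix (Fin (m + 1)) (Fin (m + 1)) (MvPolynomial (Fin 2) ℚ)) (hAs : A.IsSymm)
    (hdet : A.det ≠ 0) (hA : ∀ j k, (A j k).IsHomogeneous (dg e j k)) :
    {J : Set (MvPolynomial (Fin (m + 2)) ℚ) | ∃ x : Fin (m + 2) → L, x ≠ 0 ∧
      J = {f : MvPolynomial (Fin (m + 2)) ℚ | ∃ U ∈ 𝓝 x, ∀ y : Fin (m + 2) → ℚ, y ≠ 0 →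
        MvPolynomial.eval y (Fm A) = 0 → (∃ c : L, c ≠ 0 ∧ (fun i => c * σ (y i)) ∈ U) →
        ∀ a : ℚ, MvPolynomial.eval (a • y) f = 0}}.Finite := by
  have h1 : FAon σ (VV A) {x : Fin (m + 1 + 1) → L | x ≠ 0} :=
    hyp_FAon σ hσ he A hA fun i₀ => affine hNEAR hLIFT hGLOB hALG hMAT σ hσ (by omega)
      (AH A i₀) (AH_symm A hAs i₀) (det_AH_ne A hA hdet i₀)
  have h2 := Set.Finite.image (fun I : Ideal (MvPolynomial (Fin (m + 2)) ℚ) =>
    (I : Set (MvPolynomial (Fin (m + 2)) ℚ))) h1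
  refine h2.subset ?_
  rintro _ ⟨x, hx, rfl⟩
  refine ⟨_, ⟨x, hx, rfl⟩, ?_⟩
  have h3 := cone_J σ hσ (VV A) (fun y hy c => ?_) x hx
  · refine Eq.trans h3.symm ?_
    simp only [eval_Fm]
    rfl
  · show HF A (c • y) = 0
    have h4 : HF A y = 0 := hy
    rw [HF_smul A hA, h4, mul_zero]

end Pool.Agent.R847.QX
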