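import Pool.Agent.R847.QX.Stm

/-!
# Descent of the finiteness of the local ideals along proper maps (project QX, part PROP, helper209)
-/

set_option autoImplicit false

namespace Pool.Agent.R847.QX

open Matrix Topology Filter
open MvPolynomial (eval rename)
open Pool.Agent.TH729.CV (IA mem_IA)
open Pool.Agent.Y720.MZ (FAon mem_IA_iff)

/-- the compact set of the normalized vectors -/
def NK (L : Type) [NontriviallyNormedField L] (κ : Type) : Set (κ → L) :=
  {ζ | (∀ j, ‖ζ j‖ ≤ 1) ∧ ∃ j, ζ j = 1}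

lemma NK_compact (L : Type) [NontriviallyNormedField L] [ProperSpace L] (κ : Type) [Finite κ] :
    IsCompact (NK L κ) := by
  have h1 : IsCompact (Set.univ.pi fun _ : κ => Metric.closedBall (0 : L) 1) :=
    isCompact_univ_pi fun _ => isCompact_closedBall _ _
  refine h1.of_isClosed_subset ?_ ?_
  · have h2 : NK L κ = (⋂ j, {ζ : κ → L | ‖ζ j‖ ≤ 1}) ∩ ⋃ j, {ζ : κ → L | ζ j = 1} := by
      ext ζ
      simp [NK]
    rw [h2]
    exact IsClosed.inter
      (isClosed_iInter fun j => isClosed_le (continuous_apply j).norm continuous_const)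
      (isClosed_iUnion_of_finite fun j => isClosed_eq (continuous_apply j) continuous_const)
  · intro ζ hζ j _
    rw [mem_closedBall_zero_iff]
    exact hζ.1 j

lemma NK_ne {L : Type} [NontriviallyNormedField L] {κ : Type} {ζ : κ → L} (h : ζ ∈ NK L κ) :
    ζ ≠ 0 := by
  rintro rfl
  obtain ⟨j, hj⟩ := h.2
  exact zero_ne_one hj

section

variable {K : Type} [Field K] {L : Type} [NontriviallyNormedField L] [CompleteSpace L] [CharZero L]
  [ProperSpace L] {σ : K →+* L} {ι : Type} [Finite ι] {τ : Type} [Finite τ] {κ : ι → Type}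
  [∀ i, Finite (κ i)] {D : ∀ i, Set (τ ⊕ κ i → K)} {V : Set (τ → K)}

lemma eval_inl {κ' : Type} (y : τ ⊕ κ' → K) (f : MvPolynomial τ K) :
    eval y (rename Sum.inl f) = eval (fun j => y (Sum.inl j)) f := by
  rw [MvPolynomial.eval_rename]
  rfl

theorem mem_IA_prop (hD0 : ∀ i, ∀ y ∈ D i, (fun j => y (Sum.inr j)) ≠ 0)
    (hDc : ∀ i, ∀ y ∈ D i, ∀ c : K, c ≠ 0 →
      (Sum.elim (fun j => y (Sum.inl j)) (fun j => c * y (Sum.inr j)) : τ ⊕ κ i → K) ∈ D i)
    (hV : ∀ v : τ → K, v ∈ V ↔ ∃ i, ∃ y ∈ D i, (fun j => y (Sum.inl j)) = v)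
    (f : MvPolynomial τ K) (x : τ → L) :
    f ∈ IA σ V x ↔ ∀ i, ∀ ζ ∈ NK L (κ i), rename Sum.inl f ∈ IA σ (D i) (Sum.elim x ζ) := by
  constructor
  · intro h i ζ _
    rw [mem_IA_iff] at h ⊢
    obtain ⟨U, hU, h⟩ := h
    refine ⟨(fun z : τ ⊕ κ i → L => fun j => z (Sum.inl j)) ⁻¹' U, ?_, fun y hy hyU => ?_⟩
    · have hc : Continuous (fun z : τ ⊕ κ i → L => fun j => z (Sum.inl j)) :=
        continuous_pi fun j => continuous_apply _
      exact hc.continuousAt.preimage_mem_nhds (by simpa using hU)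
    · rw [eval_inl]
      exact h _ ((hV _).2 ⟨i, y, hy, rfl⟩) hyU
  · intro h
    have h1 : ∀ i, ∀ᶠ v in 𝓝 x, ∀ ζ ∈ NK L (κ i), ∀ y ∈ D i,
        (fun j => σ (y j)) = (Sum.elim v ζ : τ ⊕ κ i → L) → eval y (rename Sum.inl f) = 0 := by
      intro i
      refine (NK_compact L (κ i)).eventually_forall_of_forall_eventually fun ζ hζ => ?_
      have hc : Continuous (fun p : (τ → L) × (κ i → L) => (Sum.elim p.1 p.2 : τ ⊕ κ i → L)) := by
        refine continuous_pi fun j => ?_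
        rcases j with j | j
        · exact (continuous_apply j).comp continuous_fst
        · exact (continuous_apply j).comp continuous_snd
      exact (hc.tendsto (x, ζ)).eventually (mem_IA.1 (h i ζ hζ))
    rw [mem_IA]
    filter_upwards [Filter.eventually_all.2 h1] with z hz v hv hvz
    obtain ⟨i, y, hy, rfl⟩ := (hV v).1 hv
    obtain ⟨j₁, hj₁⟩ := Function.ne_iff.1 (hD0 i y hy)
    have : Nonempty (κ i) := ⟨j₁⟩
    obtain ⟨j₀, hj₀⟩ := Finite.exists_max fun j => ‖σ (y (Sum.inr j))‖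
    have hpos : 0 < ‖σ (y (Sum.inr j₀))‖ :=
      (norm_pos_iff.2 ((map_ne_zero σ).2 hj₁)).trans_le (hj₀ j₁)
    have hne : y (Sum.inr j₀) ≠ 0 := (map_ne_zero σ).1 (norm_pos_iff.1 hpos)
    have hy' := hDc i y hy (y (Sum.inr j₀))⁻¹ (inv_ne_zero hne)
    have h2 := hz i (fun j => σ ((y (Sum.inr j₀))⁻¹ * y (Sum.inr j))) ⟨fun j => ?_, j₀, ?_⟩ _ hy' ?_
    · rw [eval_inl] at h2
      exact h2
    · beta_reduce
      rw [map_mul, map_inv₀, norm_mul, norm_inv, inv_mul_le_iff₀ hpos, mul_one]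
      exact hj₀ j
    · beta_reduce
      rw [inv_mul_cancel₀ hne, map_one]
    · rw [← hvz]
      funext j
      rcases j with j | j <;> rfl

end

theorem prop_ : S_PROP := by
  intro K _ L _ _ _ _ σ ι _ τ _ κ _ D V Ω hD0 hDc hV hfin
  refine Set.Finite.of_finite_image (f := fun I : Ideal (MvPolynomial τ K) =>
    (I : Set (MvPolynomial τ K))) ?_ SetLike.coe_injective.injOn
  have hT : (Set.univ.pi fun i => {S : Set (Ideal (MvPolynomial (τ ⊕ κ i) K)) |
      S ⊆ (fun x : τ ⊕ κ i → L => IA σ (D i) x) ''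
        {x | (fun j => x (Sum.inl j)) ∈ Ω ∧ (fun j => x (Sum.inr j)) ≠ 0}}).Finite :=
    Set.Finite.pi fun i => (hfin i).finite_subsets
  refine (hT.image fun 𝒯 => {f : MvPolynomial τ K | ∀ i, ∀ I ∈ 𝒯 i,
    rename Sum.inl f ∈ I}).subset ?_
  rintro _ ⟨_, ⟨x, hx, rfl⟩, rfl⟩
  refine ⟨fun i => (fun ζ => IA σ (D i) (Sum.elim x ζ)) '' NK L (κ i), fun i _ => ?_, ?_⟩
  · rintro _ ⟨ζ, hζ, rfl⟩
    exact ⟨Sum.elim x ζ, ⟨hx, NK_ne hζ⟩, rfl⟩
  · ext f
    simp only [Set.forall_mem_image, SetLike.mem_coe]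
    exact (mem_IA_prop hD0 hDc hV f x).symm

end Pool.Agent.R847.QX
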