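import Pool.Agent.R847.QM.Bih

/-!
# Descent of Mazur's property along proper maps, and double covers: statements of the parts
(project QX, helper847)
-/

set_option autoImplicit false

namespace Pool.Agent.R847.QX

open Matrix Topology
open Pool.Agent.Y720.MZ (FAon)
open Pool.Agent.R847.QM (qv Aat Sall)

/-- Part PROP: descent along proper maps (`D i` are rational points of `X × ℙ`, `V` is the union of
their projections to `X`). -/
def S_PROP : Prop := ∀ (K : Type) [Field K] (L : Type) [NontriviallyNormedField L]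
  [CompleteSpace L] [CharZero L] [ProperSpace L] (σ : K →+* L)
  (ι : Type) [Finite ι] (τ : Type) [Finite τ] (κ : ι → Type) [∀ i, Finite (κ i)]
  (D : ∀ i, Set (τ ⊕ κ i → K)) (V : Set (τ → K)) (Ω : Set (τ → L)),
    (∀ i, ∀ y ∈ D i, (fun j => y (Sum.inr j)) ≠ 0) →
    (∀ i, ∀ y ∈ D i, ∀ c : K, c ≠ 0 →
      (Sum.elim (fun j => y (Sum.inl j)) (fun j => c * y (Sum.inr j)) : τ ⊕ κ i → K) ∈ D i) →
    (∀ v : τ → K, v ∈ V ↔ ∃ i, ∃ y ∈ D i, (fun j => y (Sum.inl j)) = v) →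
    (∀ i, FAon σ (D i) {x | (fun j => x (Sum.inl j)) ∈ Ω ∧ (fun j => x (Sum.inr j)) ≠ 0}) →
    FAon σ V Ω

/-- the matrix of a chart of the double cover (the coordinate `0` is `w`) -/
noncomputable def AW {n k : ℕ} (Q : Fin (2 * k + 1) → Matrix (Fin n) (Fin n) ℚ) (i₀ : Fin 2) :
    Matrix (Fin (n + 1)) (Fin (n + 1)) (Polynomial ℚ) :=
  Matrix.of (Fin.cons (Fin.cons (-1) (fun _ => 0))
    (fun j => Fin.cons 0 (fun l => ∑ i : Fin (2 * k + 1),
      (Polynomial.X : Polynomial ℚ) ^ (if i₀ = 0 then (i : ℕ) else 2 * k - i) *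
        Polynomial.C (Q i j l))))

/-- Part DC: local ideals of double covers in trihomogeneous coordinates. The pattern of the proof
is `Pool.Agent.R847.QM.JJ_eq` and `bih` in `QM/Bih.lean`. -/
def S_DC : Prop := ∀ (L : Type) [NontriviallyNormedField L] [CompleteSpace L] [CharZero L]
  (σ : ℚ →+* L), DenseRange σ → ∀ (k n : ℕ) (Q : Fin (2 * k + 1) → Matrix (Fin n) (Fin n) ℚ),
    (∀ i₀ : Fin 2, FAon σ (Sall (AW Q i₀))
      {x : Fin (n + 1 + 1) → L | (fun i : Fin (n + 1) => x i.succ) ≠ 0}) →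
    {J : Set (MvPolynomial (Option (Fin n ⊕ Fin 2)) ℚ) |
        ∃ (w : L) (x : Fin n → L) (s : Fin 2 → L), x ≠ 0 ∧ s ≠ 0 ∧
          J = {f : MvPolynomial (Option (Fin n ⊕ Fin 2)) ℚ |
            ∃ U ∈ nhds (w, x, s), ∀ (W : ℚ) (Y : Fin n → ℚ) (T : Fin 2 → ℚ), Y ≠ 0 → T ≠ 0 →
              W ^ 2 = ∑ i : Fin (2 * k + 1), T 0 ^ (2 * k - (i : ℕ)) * T 1 ^ (i : ℕ) *
                (Y ⬝ᵥ Q i *ᵥ Y) →
              (∃ c e : L, c ≠ 0 ∧ e ≠ 0 ∧
                (c * e ^ k * σ W, (fun i => c * σ (Y i)), fun j => e * σ (T j)) ∈ U) →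
              ∀ a b : ℚ, MvPolynomial.eval
                (fun o => o.elim (a * b ^ k * W) (Sum.elim (a • Y) (b • T))) f = 0}}.Finite

end Pool.Agent.R847.QX
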